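import Pool.Agent.Lib.FPS.AlgDep

/-!
# FPI.Avoid: the products form a small subset

PROOF of `exists_pi`: let `M' = M.comap V.subtype` (a submodule of `V`); `V ⧸ M'` has dimension
`finrank V - finrank M`; choose a linear equivalence with `Fin N → ℂ`, compose with the quotient map, and
extend from `V` to the whole space (`LinearMap.exists_extend`).
PROOF of `avoid`: let `N1 = finrank V1 - finrank M1`, `N2 = finrank V2 - finrank M2`. Choose
`g : Fin N1 → V1` with `V1 = M1 ⊔ span g` (a basis of a complement) and `h : Fin N2 → V2` in the same way.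
Let `x ∈ V1`, `y ∈ V2`, `x = x' + ∑ s j • g j`, `y = y' + ∑ t k • h k`. Modulo `M`,
`x * y ≡ ∑ s j t k g j h k` (`h1`, `h2`), so `π G = π (x * y) = ∑ s j t k π (g j h k)` if `G - x * y ∈ M`.
If all `s j = 0` or all `t k = 0`, then `x * y ∈ M` and `G ∈ M`. So `N1, N2 ≥ 1`, hence `N1 + N2 ≤ N`, and some
`s i ≠ 0`; replacing `s` by `s / s i` and `t` by `s i t` we may assume `s i = 1`. For each `i` the map
`(s j)_{j ≠ i}, (t k)_k ↦ ∑ s j t k π (g j h k)` (with `s i = 1`) is polynomial in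
`N1 - 1 + N2 < N` variables; `alg_dep` (`σ = {j // j ≠ i} ⊕ Fin N2`) gives `P i ≠ 0`. Take `P = ∏ i, P i`
(`1` if `N1 = 0`, or take `P = 1` when `N1 = 0` or `N2 = 0`: then there is no such `G`).
-/

namespace FPS

open MvPolynomial

namespace AvoidAux

/-- generators modulo a subspace -/
theorem gens (V1 M1 : Submodule ℂ (MvPolynomial (Fin 3) ℂ)) [FiniteDimensional ℂ V1]
    (hM1 : M1 ≤ V1) :
    ∃ (n : ℕ) (g : Fin n → MvPolynomial (Fin 3) ℂ),
      n + Module.finrank ℂ M1 = Module.finrank ℂ V1 ∧ (∀ j, g j ∈ V1) ∧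
      ∀ x ∈ V1, ∃ s : Fin n → ℂ, x - ∑ j, s j • g j ∈ M1 := by
  have e1 : Module.finrank ℂ (M1.comap V1.subtype) = Module.finrank ℂ M1 :=
    (Submodule.comapSubtypeEquivOfLe hM1).finrank_eq
  have e2 := Submodule.finrank_quotient_add_finrank (M1.comap V1.subtype)
  let b := Module.finBasis ℂ (V1 ⧸ M1.comap V1.subtype)
  have hs := Submodule.mkQ_surjective (M1.comap V1.subtype)
  choose g hg using fun j => hs (b j)
  refine ⟨_, fun j => (g j : MvPolynomial (Fin 3) ℂ), ?_, fun j => (g j).2, fun x hx => ?_⟩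
  · rw [← e2, e1]
  · refine ⟨fun j => b.repr ((M1.comap V1.subtype).mkQ ⟨x, hx⟩) j, ?_⟩
    have h1 : (M1.comap V1.subtype).mkQ ((⟨x, hx⟩ : V1) -
        ∑ j, b.repr ((M1.comap V1.subtype).mkQ ⟨x, hx⟩) j • g j) = 0 := by
      rw [map_sub, map_sum]
      have h2 := b.sum_repr ((M1.comap V1.subtype).mkQ ⟨x, hx⟩)
      rw [sub_eq_zero]
      refine h2.symm.trans (Finset.sum_congr rfl fun j _ => ?_)
      rw [map_smul, hg]
    rw [Submodule.mkQ_apply, Submodule.Quotient.mk_eq_zero, Submodule.mem_comap] at h1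
    have h3 : V1.subtype ((⟨x, hx⟩ : V1) -
        ∑ j, b.repr ((M1.comap V1.subtype).mkQ ⟨x, hx⟩) j • g j) =
        x - ∑ j, b.repr ((M1.comap V1.subtype).mkQ ⟨x, hx⟩) j •
          (g j : MvPolynomial (Fin 3) ℂ) := by
      rw [map_sub, map_sum]
      simp only [map_smul, Submodule.subtype_apply]
    rw [h3] at h1
    exact h1

end AvoidAux

open AvoidAux

theorem exists_pi (V M : Submodule ℂ (MvPolynomial (Fin 3) ℂ)) [FiniteDimensional ℂ V]
    (hM : M ≤ V) (N : ℕ) (hN : Module.finrank ℂ M + N = Module.finrank ℂ V) :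
    ∃ π : MvPolynomial (Fin 3) ℂ →ₗ[ℂ] (Fin N → ℂ), (∀ G ∈ V, π G = 0 ↔ G ∈ M) ∧
      ∀ t, ∃ G ∈ V, π G = t := by
  have e1 : Module.finrank ℂ (M.comap V.subtype) = Module.finrank ℂ M :=
    (Submodule.comapSubtypeEquivOfLe hM).finrank_eq
  have e2 := Submodule.finrank_quotient_add_finrank (M.comap V.subtype)
  have e3 : Module.finrank ℂ (V ⧸ M.comap V.subtype) = Module.finrank ℂ (Fin N → ℂ) := by
    rw [Module.finrank_fin_fun]
    omega
  let e : (V ⧸ M.comap V.subtype) ≃ₗ[ℂ] (Fin N → ℂ) := LinearEquiv.ofFinrankEq _ _ e3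
  obtain ⟨π, hπ⟩ := LinearMap.exists_extend
    (e.toLinearMap.comp (M.comap V.subtype).mkQ)
  have h1 : ∀ (G : MvPolynomial (Fin 3) ℂ) (hG : G ∈ V),
      π G = e ((M.comap V.subtype).mkQ ⟨G, hG⟩) := fun G hG =>
    congrArg (fun f : V →ₗ[ℂ] (Fin N → ℂ) => f ⟨G, hG⟩) hπ
  refine ⟨π, fun G hG => ?_, fun t => ?_⟩
  · rw [h1 G hG, LinearEquiv.map_eq_zero_iff, Submodule.mkQ_apply,
      Submodule.Quotient.mk_eq_zero, Submodule.mem_comap]
    rfl
  · obtain ⟨v, hv⟩ := Submodule.mkQ_surjective (M.comap V.subtype) (e.symm t)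
    refine ⟨v, v.2, ?_⟩
    rw [h1 v v.2]
    have : (⟨(v : MvPolynomial (Fin 3) ℂ), v.2⟩ : V) = v := rfl
    rw [this, hv, LinearEquiv.apply_symm_apply]

theorem avoid (V M V1 M1 V2 M2 : Submodule ℂ (MvPolynomial (Fin 3) ℂ)) [FiniteDimensional ℂ V1]
    [FiniteDimensional ℂ V2] (hM1 : M1 ≤ V1) (hM2 : M2 ≤ V2)
    (hV : ∀ x ∈ V1, ∀ y ∈ V2, x * y ∈ V) (h1 : ∀ x ∈ M1, ∀ y ∈ V2, x * y ∈ M)
    (h2 : ∀ x ∈ V1, ∀ y ∈ M2, x * y ∈ M) (N : ℕ)
    (hN : Module.finrank ℂ M1 < Module.finrank ℂ V1 → Module.finrank ℂ M2 < Module.finrank ℂ V2 →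
      Module.finrank ℂ V1 + Module.finrank ℂ V2 ≤ N + Module.finrank ℂ M1 + Module.finrank ℂ M2)
    (π : MvPolynomial (Fin 3) ℂ →ₗ[ℂ] (Fin N → ℂ)) (hπ : ∀ G ∈ M, π G = 0) :
    ∃ P : MvPolynomial (Fin N) ℂ, P ≠ 0 ∧ ∀ G, G ∉ M → ∀ x ∈ V1, ∀ y ∈ V2, G - x * y ∈ M →
      eval (π G) P = 0 := by
  classical
  obtain ⟨n1, g, en1, hg, hgs⟩ := gens V1 M1 hM1
  obtain ⟨n2, h, en2, hh, hhs⟩ := gens V2 M2 hM2
  have hback : ∀ G x y, G - x * y ∈ M → x * y ∈ M → G ∈ M := fun G x y h3 h4 => by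
    have := M.add_mem h3 h4
    rwa [sub_add_cancel] at this
  by_cases c1 : n1 = 0
  · subst c1
    refine ⟨1, one_ne_zero, fun G hG x hx y hy hxy => ?_⟩
    obtain ⟨s, hs⟩ := hgs x hx
    rw [Finset.univ_eq_empty, Finset.sum_empty, sub_zero] at hs
    exact absurd (hback G x y hxy (h1 x hs y hy)) hG
  by_cases c2 : n2 = 0
  · subst c2
    refine ⟨1, one_ne_zero, fun G hG x hx y hy hxy => ?_⟩
    obtain ⟨s, hs⟩ := hhs y hy
    rw [Finset.univ_eq_empty, Finset.sum_empty, sub_zero] at hs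
    exact absurd (hback G x y hxy (h2 x hx y hs)) hG
  have hle : n1 + n2 ≤ N := by
    have := hN (by omega) (by omega)
    omega
  have hcard : ∀ i : Fin n1, Fintype.card ({j : Fin n1 // j ≠ i} ⊕ Fin n2) <
      Fintype.card (Fin N) := by
    intro i
    rw [Fintype.card_sum, Fintype.card_fin, Fintype.card_fin]
    have h3 : Fintype.card {j : Fin n1 // j ≠ i} = n1 - 1 := by
      rw [Fintype.card_subtype_compl, Fintype.card_fin, Fintype.card_subtype_eq]
    omega
  choose P hP0 hP using fun i : Fin n1 => alg_dep (hcard i)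
    (fun l : Fin N => ∑ j : Fin n1, ∑ k : Fin n2,
      C (π (g j * h k) l) * ((if hj : j ≠ i then X (Sum.inl ⟨j, hj⟩) else 1) * X (Sum.inr k)))
  refine ⟨∏ i, P i, Finset.prod_ne_zero_iff.2 fun i _ => hP0 i, fun G hG x hx y hy hxy => ?_⟩
  obtain ⟨s, hs⟩ := hgs x hx
  obtain ⟨t, ht⟩ := hhs y hy
  have hsi : ∃ i, s i ≠ 0 := by
    by_contra hcon
    push Not at hcon
    have h3 : ∑ j, s j • g j = 0 := Finset.sum_eq_zero fun j _ => by rw [hcon j, zero_smul]
    rw [h3, sub_zero] at hs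
    exact hG (hback G x y hxy (h1 x hs y hy))
  obtain ⟨i, hi⟩ := hsi
  have hxs : ∑ j, s j • g j ∈ V1 := V1.sum_mem fun j _ => V1.smul_mem _ (hg j)
  have hmod : x * y - (∑ j, s j • g j) * (∑ k, t k • h k) ∈ M := by
    have h4 : x * y - (∑ j, s j • g j) * (∑ k, t k • h k) =
        (x - ∑ j, s j • g j) * y + (∑ j, s j • g j) * (y - ∑ k, t k • h k) := by ring
    rw [h4]
    exact M.add_mem (h1 _ hs _ hy) (h2 _ hxs _ ht)
  have hG' : G - (∑ j, s j • g j) * (∑ k, t k • h k) ∈ M := by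
    have := M.add_mem hxy hmod
    rwa [sub_add_sub_cancel] at this
  have hπG : π G = π ((∑ j, s j • g j) * (∑ k, t k • h k)) := by
    have := hπ _ hG'
    rwa [map_sub, sub_eq_zero] at this
  have hval : ∀ l, π G l = ∑ j : Fin n1, ∑ k : Fin n2, π (g j * h k) l * (s j * t k) := by
    intro l
    have h5 : (∑ j, s j • g j) * (∑ k, t k • h k) =
        ∑ j : Fin n1, ∑ k : Fin n2, (s j * t k) • (g j * h k) := by
      rw [Finset.sum_mul]
      refine Finset.sum_congr rfl fun j _ => ?_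
      rw [Finset.mul_sum]
      refine Finset.sum_congr rfl fun k _ => ?_
      rw [smul_mul_smul_comm]
    rw [hπG, h5, map_sum, Finset.sum_apply]
    refine Finset.sum_congr rfl fun j _ => ?_
    rw [map_sum, Finset.sum_apply]
    refine Finset.sum_congr rfl fun k _ => ?_
    rw [map_smul, Pi.smul_apply, smul_eq_mul, mul_comm]
  rw [map_prod]
  refine Finset.prod_eq_zero (Finset.mem_univ i) ?_
  have h6 := hP i (Sum.elim (fun j => s j.1 / s i) (fun k => s i * t k))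
  have h7 : (fun l : Fin N => eval (Sum.elim (fun j : {j : Fin n1 // j ≠ i} => s j.1 / s i)
      (fun k => s i * t k)) (∑ j : Fin n1, ∑ k : Fin n2, C (π (g j * h k) l) *
        ((if hj : j ≠ i then X (Sum.inl ⟨j, hj⟩) else 1) * X (Sum.inr k)))) = π G := by
    funext l
    rw [hval l, map_sum]
    refine Finset.sum_congr rfl fun j _ => ?_
    rw [map_sum]
    refine Finset.sum_congr rfl fun k _ => ?_
    rw [RingHom.map_mul, RingHom.map_mul, eval_C, eval_X, Sum.elim_inr]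
    congr 1
    by_cases hj : j ≠ i
    · rw [dif_pos hj, eval_X, Sum.elim_inl]
      field_simp
    · rw [dif_neg hj, map_one, one_mul]
      have : j = i := not_not.1 hj
      rw [this]
  rw [← h7]
  exact h6

/-- linear functionals are polynomials in the coefficients -/
theorem pi_coeff (e N : ℕ) (π : MvPolynomial (Fin 3) ℂ →ₗ[ℂ] (Fin N → ℂ))
    (P : MvPolynomial (Fin N) ℂ) :
    ∃ P' : MvPolynomial (Fin 3 →₀ ℕ) ℂ, ∀ G : MvPolynomial (Fin 3) ℂ, G.totalDegree ≤ e →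
      eval (fun α => coeff α G) P' = eval (π G) P := by
  classical
  set T : Finset (Fin 3 →₀ ℕ) :=
    Finset.Icc 0 (Finsupp.equivFunOnFinite.symm fun _ : Fin 3 => e) with hT
  refine ⟨bind₁ (fun l : Fin N => ∑ α ∈ T, C (π (monomial α 1) l) * X α) P, fun G hG => ?_⟩
  have hsup : G.support ⊆ T := by
    intro α hα
    rw [hT, Finset.mem_Icc]
    refine ⟨zero_le, fun i => ?_⟩
    rw [Finsupp.equivFunOnFinite_symm_apply_apply]
    have h1 := le_totalDegree hα
    have h2 : α i ≤ α.sum fun _ e => e := by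
      rw [Finsupp.sum_fintype _ _ (fun _ => rfl)]
      exact Finset.single_le_sum (f := fun i => α i) (fun _ _ => Nat.zero_le _)
        (Finset.mem_univ i)
    omega
  have hGs : G = ∑ α ∈ T, coeff α G • (monomial α (1 : ℂ) : MvPolynomial (Fin 3) ℂ) := by
    have h1 : ∑ α ∈ G.support, coeff α G • (monomial α (1 : ℂ) : MvPolynomial (Fin 3) ℂ) =
        ∑ α ∈ T, coeff α G • (monomial α (1 : ℂ) : MvPolynomial (Fin 3) ℂ) := by
      refine Finset.sum_subset hsup fun α _ hα => ?_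
      rw [notMem_support_iff.1 hα, zero_smul]
    rw [← h1]
    have h2 := support_sum_monomial_coeff G
    refine h2.symm.trans (Finset.sum_congr rfl fun α _ => ?_)
    rw [smul_monomial, smul_eq_mul, mul_one]
  have h3 : ∀ f : (Fin 3 →₀ ℕ) → ℂ, eval f (bind₁ (fun l : Fin N =>
      ∑ α ∈ T, C (π (monomial α 1) l) * X α) P) =
      eval (fun l => eval f (∑ α ∈ T, C (π (monomial α 1) l) * X α)) P := by
    intro f
    exact eval₂Hom_bind₁ (RingHom.id ℂ) f _ P
  rw [h3]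
  congr 2
  funext l
  have h4 : π G l = ∑ α ∈ T, coeff α G * π (monomial α 1) l := by
    have h5 : π G = ∑ α ∈ T, coeff α G • π (monomial α 1) := by
      conv_lhs => rw [hGs]
      rw [map_sum]
      refine Finset.sum_congr rfl fun α _ => ?_
      rw [map_smul]
    rw [h5, Finset.sum_apply]
    rfl
  rw [h4, map_sum]
  refine Finset.sum_congr rfl fun α _ => ?_
  rw [map_mul, eval_C, eval_X, mul_comm]

end FPS
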