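import Pool.Agent.Lib.FPC.Fin
import Pool.Agent.Lib.FPW.Gen
import Pool.Agent.Lib.FPW.GenT
import Pool.Agent.Lib.FPW.DmM
import Pool.Agent.Lib.FPW.BootA

/-!
# FPI.GenI: properties of a general surface

PROOF of `exact_gen`: `main_gen (d - 2) 2 d e` with `special_all` (`100 μ^2 ≤ e` from `400 ≤ e`,
`5 μ^5 ≤ e`) gives `Φ`; take the product with `Φ'` from `top_gen` (for the smooth point). For such `F` take
the `Ψ` and a tuple `q` with `Ψ (q) ≠ 0`; all `q l` are smooth, so `Dm F e c ≤ finrank (series F e q c)`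
(`Dm_le`), and `finrank_mults`. For `≥`: `Dm_count`, `mults_le_Dm`, `finrank_mults`.
PROOF of `drop_gen`: `top_gen` gives `B`, `general_prime`, `NL_sys` (see `window_list` in `FPW/Asm.lean`). For
`c : Fin r → ℕ` let `R = List.ofFn c`: `Dm F e c = Dm F e R.get` (`Dm_ofFn` in `FPW/Asm.lean`),
`NL F e R = Dm F e c - finrank (mults F e)` is positive, `drop_sum'` with `L = []` and `NL_nil` give
`NL F e R + R.sum ≤ h0 d e`.
PROOF of `gen_surf`: `common_fin` over `e' ∈ range (e+1)` and `c ∈ Fintype.piFinset (fun l => range (m l + 1))`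
(for `e' = 0` or too small the condition is empty: `Φ = 1`), and `general_prime`, `top_gen` (`common`).
-/

namespace FPS

open MvPolynomial

/-- the properties of a general surface which we use -/
structure GenS (d e μ : ℕ) (F : MvPolynomial (Fin 3) ℂ) {r : ℕ} (m : Fin r → ℕ) : Prop where
  deg : F.totalDegree = d
  prime : Prime F
  sm : ∃ p, Sm F p
  exact : ∀ e', e' ≤ e → 400 ≤ e' → 5 * μ ^ 5 ≤ e' → ∀ c : Fin r → ℕ, (∀ l, c l ≤ m l) →
    Dm F e' c = Module.finrank ℂ (mults F e') + (h0 d e' - ∑ l, T (c l))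
  drop : ∀ e', 1 ≤ e' → e' ≤ e → ∀ c : Fin r → ℕ, (∀ l, c l ≤ m l) →
    Module.finrank ℂ (mults F e') < Dm F e' c →
    Dm F e' c + ∑ l, c l ≤ Module.finrank ℂ (mults F e') + h0 d e'

namespace GenIAux

theorem Dm_cast (F : MvPolynomial (Fin 3) ℂ) (e : ℕ) {r n : ℕ} (h : n = r) (f : Fin r → ℕ) :
    Dm F e (f ∘ Fin.cast h) = Dm F e f := by
  subst h
  rfl

theorem Dm_ofFn (F : MvPolynomial (Fin 3) ℂ) (e : ℕ) {r : ℕ} (f : Fin r → ℕ) :
    Dm F e (List.ofFn f).get = Dm F e f := by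
  rw [← Dm_cast F e (List.length_ofFn (f := f)) f]
  congr 1
  funext i
  rw [List.get_ofFn]
  rfl

theorem hundred {μ e : ℕ} (hμ : 2 ≤ μ) (he : 400 ≤ e) (he5 : 5 * μ ^ 5 ≤ e) :
    100 * μ ^ 2 ≤ e := by
  rcases eq_or_lt_of_le hμ with h | h
  · rw [← h]
    omega
  · have h3 : 3 ≤ μ := h
    have h4 : 27 ≤ μ ^ 3 := by
      calc 27 = 3 ^ 3 := by norm_num
        _ ≤ μ ^ 3 := Nat.pow_le_pow_left h3 3
    have h5 : 5 * μ ^ 5 = 5 * μ ^ 3 * μ ^ 2 := by ring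
    have h6 : 100 * μ ^ 2 ≤ 5 * μ ^ 3 * μ ^ 2 := Nat.mul_le_mul_right _ (by omega)
    omega

end GenIAux

open GenIAux

theorem exact_gen (d e μ : ℕ) (hd : 4 ≤ d) (hμ : 2 ≤ μ) (he : 400 ≤ e) (he5 : 5 * μ ^ 5 ≤ e)
    {r : ℕ} (c : Fin r → ℕ) (hc : ∀ l, c l ≤ μ) :
    ∃ Φ : MvPolynomial (Fin 3 →₀ ℕ) ℂ,
      (∃ F : MvPolynomial (Fin 3) ℂ, F.totalDegree ≤ d ∧ eval (fun α => coeff α F) Φ ≠ 0) ∧
      ∀ F : MvPolynomial (Fin 3) ℂ, F.totalDegree ≤ d → eval (fun α => coeff α F) Φ ≠ 0 →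
        Dm F e c = Module.finrank ℂ (mults F e) + (h0 d e - ∑ l, T (c l)) := by
  have hd2 : d - 2 + 2 = d := by omega
  obtain ⟨x, y, hxy⟩ := special_all (d - 2) e μ (by omega) hμ (hundred hμ he he5) he5 c hc
  rw [hd2] at hxy
  obtain ⟨Φ1, h1, hΦ1⟩ := main_gen (d - 2) 2 d e hd2 hd c ⟨x, y, hxy⟩
  obtain ⟨B, Φ2, h2, hΦ2⟩ := top_gen d e hd (by omega)
  refine ⟨Φ1 * Φ2, common d Φ1 Φ2 h1 h2, fun F hF hne => ?_⟩
  rw [map_mul] at hne
  have hne1 := left_ne_zero_of_mul hne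
  have hne2 := right_ne_zero_of_mul hne
  obtain ⟨hdeg, hsm, -⟩ := hΦ2 F hF hne2
  obtain ⟨-, Ψ, ⟨q, hq0, hq⟩, hΨ⟩ := hΦ1 F hF hne1
  obtain ⟨-, k2, k3⟩ := hΨ q hq0 hq
  have k4 := Dm_le F e c q fun l => ⟨hq0 l, k3 l⟩
  have hF0 : F ≠ 0 := by
    rintro rfl
    rw [totalDegree_zero] at hdeg
    omega
  have k5 := finrank_mults F d e hF0 hdeg
  have k6 := Dm_count F hsm e c
  have k7 := mults_le_Dm F hsm e c
  omega

theorem drop_gen (d e : ℕ) (hd : 4 ≤ d) (he : 1 ≤ e) :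
    ∃ Φ : MvPolynomial (Fin 3 →₀ ℕ) ℂ,
      (∃ F : MvPolynomial (Fin 3) ℂ, F.totalDegree ≤ d ∧ eval (fun α => coeff α F) Φ ≠ 0) ∧
      ∀ F : MvPolynomial (Fin 3) ℂ, F.totalDegree ≤ d → eval (fun α => coeff α F) Φ ≠ 0 →
        F.totalDegree = d ∧ (∃ p, Sm F p) ∧ Prime F ∧
        ∀ (r : ℕ) (c : Fin r → ℕ), Module.finrank ℂ (mults F e) < Dm F e c →
          Dm F e c + ∑ l, c l ≤ Module.finrank ℂ (mults F e) + h0 d e := by
  obtain ⟨B, Φ2, h2, hΦ2⟩ := top_gen d e hd he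
  obtain ⟨Φ3, h3, hΦ3⟩ := general_prime d (by omega)
  refine ⟨Φ2 * Φ3, common d Φ2 Φ3 h2 h3, fun F hF hne => ?_⟩
  rw [map_mul] at hne
  have hne2 := left_ne_zero_of_mul hne
  have hne3 := right_ne_zero_of_mul hne
  obtain ⟨hdeg, hsm, htop⟩ := hΦ2 F hF hne2
  have hprime := hΦ3 F hdeg hne3
  have hN := NL_sys F hprime hsm e B htop
  have hnil := NL_nil F hsm d e hdeg
  refine ⟨hdeg, hsm, hprime, fun r c hlt => ?_⟩
  have e1 : NL F e (List.ofFn c) = Dm F e c - Module.finrank ℂ (mults F e) := by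
    have : NL F e (List.ofFn c) =
      Dm F e (List.ofFn c).get - Module.finrank ℂ (mults F e) := rfl
    rw [this, Dm_ofFn]
  have e2 : (List.ofFn c).sum = ∑ l, c l := List.sum_ofFn
  have e3 := drop_sum' hN (List.ofFn c) [] (by
    rw [List.append_nil, e1]
    omega)
  rw [List.append_nil, e1, e2, hnil] at e3
  omega

theorem gen_surf (d e μ : ℕ) (hd : 4 ≤ d) (hμ : 2 ≤ μ) (he : 1 ≤ e) {r : ℕ} (m : Fin r → ℕ)
    (hm : ∀ l, m l ≤ μ) :
    ∃ Φ : MvPolynomial (Fin 3 →₀ ℕ) ℂ,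
      (∃ F : MvPolynomial (Fin 3) ℂ, F.totalDegree ≤ d ∧ eval (fun α => coeff α F) Φ ≠ 0) ∧
      ∀ F : MvPolynomial (Fin 3) ℂ, F.totalDegree ≤ d → eval (fun α => coeff α F) Φ ≠ 0 →
        GenS d e μ F m := by
  classical
  obtain ⟨Φ1, h1, hΦ1⟩ := common_fin d
    (Finset.range (e + 1) ×ˢ Fintype.piFinset (fun l : Fin r => Finset.range (m l + 1)))
    (fun i F => 400 ≤ i.1 → 5 * μ ^ 5 ≤ i.1 →
      Dm F i.1 i.2 = Module.finrank ℂ (mults F i.1) + (h0 d i.1 - ∑ l, T (i.2 l)))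
    (by
      rintro ⟨e', c⟩ hi
      have hc : ∀ l, c l ≤ μ := by
        intro l
        have h2 := (Finset.mem_product.1 hi).2
        have h3 := Finset.mem_range.1 ((Fintype.mem_piFinset.1 h2) l)
        have h4 := hm l
        change c l < m l + 1 at h3
        omega
      by_cases h : 400 ≤ e' ∧ 5 * μ ^ 5 ≤ e'
      · obtain ⟨Φ, k, hΦ⟩ := exact_gen d e' μ hd hμ h.1 h.2 c hc
        exact ⟨Φ, k, fun F hF hne _ _ => hΦ F hF hne⟩
      · exact ⟨1, ⟨0, by simp, by simp⟩, fun F _ _ h1 h2 => absurd ⟨h1, h2⟩ h⟩)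
  obtain ⟨Φ2, h2, hΦ2⟩ := common_fin d (Finset.range (e + 1))
    (fun e' F => 1 ≤ e' → ∀ (r : ℕ) (c : Fin r → ℕ), Module.finrank ℂ (mults F e') < Dm F e' c →
      Dm F e' c + ∑ l, c l ≤ Module.finrank ℂ (mults F e') + h0 d e')
    (by
      intro e' _
      by_cases h : 1 ≤ e'
      · obtain ⟨Φ, k, hΦ⟩ := drop_gen d e' hd h
        exact ⟨Φ, k, fun F hF hne _ => (hΦ F hF hne).2.2.2⟩
      · exact ⟨1, ⟨0, by simp, by simp⟩, fun F _ _ h1 => absurd h1 h⟩)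
  obtain ⟨Φ3, h3, hΦ3⟩ := drop_gen d e hd he
  refine ⟨Φ1 * Φ2 * Φ3, common d (Φ1 * Φ2) Φ3 (common d Φ1 Φ2 h1 h2) h3, fun F hF hne => ?_⟩
  rw [map_mul, map_mul] at hne
  have hne1 := left_ne_zero_of_mul (left_ne_zero_of_mul hne)
  have hne2 := right_ne_zero_of_mul (left_ne_zero_of_mul hne)
  have hne3 := right_ne_zero_of_mul hne
  obtain ⟨hdeg, hsm, hprime, -⟩ := hΦ3 F hF hne3
  refine ⟨hdeg, hprime, hsm, ?_, ?_⟩
  · intro e' he' h400 h5 c hc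
    refine hΦ1 F hF hne1 (e', c) ?_ h400 h5
    rw [Finset.mem_product]
    refine ⟨Finset.mem_range.2 (by
      change e' < e + 1
      omega), Fintype.mem_piFinset.2 fun l => Finset.mem_range.2 ?_⟩
    change c l < m l + 1
    have := hc l
    omega
  · intro e' h1' he' c _ hlt
    exact hΦ2 F hF hne2 e' (Finset.mem_range.2 (by omega)) h1' r c hlt

end FPS
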