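import Pool.Agent.Lib.FPW.GenA
import Pool.Agent.Lib.FPW.BootA

/-!
# FPI.NumI: numerical inequalities for splittings

All statements were checked numerically (`quadH` for `d < 60`, `K < 150`).
PROOF of `quadH`. `h0 d k = 2 k^2 + 2 + E k` for `k ≥ 1`, `E k = ∑_{j=1}^{d-4} (k-1-j).choose 2`:
`(k+3).choose 3 = 2 k^2 + 2 + (k-1).choose 3` (`k ≥ 1`) and `(k-1).choose 3 - (k+3-d).choose 3 =
∑_{j=1}^{d-4} (k-1-j).choose 2` (telescoping `n.choose 3 - (n-1).choose 3 = (n-1).choose 2`; the term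
`(k+3-d).choose 3` is `0` for `k < d`, truncated subtraction). For `1 ≤ k ≤ K` and every `c`,
`(k-c).choose 2 * K^2 ≤ (K-c).choose 2 * k^2` (as `(k-c) K ≤ (K-c) k` and `(k-c-1) K ≤ (K-c-1) k`), so
`E k * K^2 ≤ E K * k^2`, and `h0 d k * K^2 = 2 k^2 K^2 + 2 K^2 + E k K^2 ≤ h0 d K k^2 + 2 K^2`. `k = 0`:
`h0 d 0 = 1`.
`splitA`: write `H = h0 d (e1+e2)`, `e = e1 + e2`. From `quadH`: `h0 d e2 * e^2 ≤ H e2^2 + 2 e^2`,
`h0 d e1 * e^2 ≤ H e1^2 + 2 e^2`, and `H ≥ 2 e^2` (`h0_ge`, `e ≥ 5`). So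
`e^2 (h0 d e2 + μ h0 d e1) ≤ H (e2^2 + μ e1^2) + 2 (μ+1) e^2`, and
`H (e^2 - e2^2 - μ e1^2) = H e1 (e1 + 2 e2 - μ e1) ≥ 2 e^2 * (μ + 1)`, as `2 e2 + e1 ≥ μ e1 + μ + 1`.
`splitB`: `2 e1 e2 a b ≤ e2^2 a^2 + e1^2 b^2` and `(μ+1) a^2 ≤ 2 μ T a`, so
`(μ+1) e1 e2 ∑ a b ≤ μ (e2^2 S1 + e1^2 S2)` with `S1 = ∑ T a ≤ h0 d e1`, `S2 = ∑ T b ≤ h0 d e2`. Multiply the
claim `h0 d e1 + h0 d e2 + ∑ a b ≤ H` by `(μ+1) e1 e2 e^2` and use `quadH`: the difference is at least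
`2 H e1^2 e2^2 - e^2 (4 (μ+1) e1 e2 + 2 μ (e1^2 + e2^2)) ≥ e^2 (4 e1^2 e2^2 - 4 (μ+1) e1 e2 - 2 μ (e1^2+e2^2))
≥ 0` since `e1, e2 ≥ 4 μ`.
`T_split`: `T (a + b) = T a + T b + a b`, `T (a+b) ≤ T b + μ a` for `a + b ≤ μ`.
-/

namespace FPS

namespace NumIAux

theorem h0_add (d k : ℕ) : h0 d k + (k + 3 - d).choose 3 = (k + 3).choose 3 := by
  unfold h0
  by_cases h : d ≤ k
  · rw [if_pos h]
    have e1 : k - d + 3 = k + 3 - d := by omega
    have h2 : (k + 3 - d).choose 3 ≤ (k + 3).choose 3 := Nat.choose_le_choose 3 (by omega)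
    rw [e1]
    omega
  · rw [if_neg h]
    have h1 : (k + 3 - d).choose 3 = 0 := Nat.choose_eq_zero_of_lt (by omega)
    rw [h1]
    omega

theorem h0_succ (d k : ℕ) : h0 (d + 1) k = h0 d k + (k + 2 - d).choose 2 := by
  have h1 := h0_add (d + 1) k
  have h2 := h0_add d k
  have e1 : k + 3 - (d + 1) = k + 2 - d := by omega
  rw [e1] at h1
  have h3 : (k + 3 - d).choose 3 = (k + 2 - d).choose 2 + (k + 2 - d).choose 3 := by
    rcases Nat.lt_or_ge (k + 2) d with h | h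
    · have e2 : k + 3 - d = 0 := by omega
      have e3 : k + 2 - d = 0 := by omega
      rw [e2, e3]
      rfl
    · have e2 : k + 3 - d = k + 2 - d + 1 := by omega
      rw [e2]
      rfl
  omega

theorem two_choose (n : ℕ) : 2 * n.choose 2 = n * (n - 1) := by
  rw [Nat.choose_two_right]
  exact Nat.mul_div_cancel' (Nat.even_mul_pred_self n).two_dvd

theorem six_choose (k : ℕ) : 6 * (k + 3).choose 3 = (k + 1) * (k + 2) * (k + 3) := by
  induction k with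
  | zero => rfl
  | succ n ih =>
    have h1 : (n + 1 + 3).choose 3 = (n + 3).choose 2 + (n + 3).choose 3 := rfl
    have h2 := two_choose (n + 3)
    have e1 : n + 3 - 1 = n + 2 := by omega
    rw [e1] at h2
    rw [h1, mul_add, ih]
    have h3 : 6 * (n + 3).choose 2 = 3 * ((n + 3) * (n + 2)) := by omega
    rw [h3]
    ring

theorem choose_sq (c k K : ℕ) (hk : k ≤ K) : (k - c).choose 2 * K ^ 2 ≤ (K - c).choose 2 * k ^ 2 := by
  have h1 := two_choose (k - c)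
  have h2 := two_choose (K - c)
  have a1 : (k - c) * K ≤ (K - c) * k := by
    rcases Nat.lt_or_ge k c with h | h
    · have e : k - c = 0 := by omega
      rw [e, Nat.zero_mul]
      exact Nat.zero_le _
    · obtain ⟨x, rfl⟩ := Nat.exists_eq_add_of_le h
      obtain ⟨y, rfl⟩ := Nat.exists_eq_add_of_le hk
      have e1 : c + x - c = x := by omega
      have e2 : c + x + y - c = x + y := by omega
      rw [e1, e2]
      nlinarith
  have a2 : (k - c - 1) * K ≤ (K - c - 1) * k := by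
    rcases Nat.lt_or_ge k (c + 1) with h | h
    · have e : k - c - 1 = 0 := by omega
      rw [e, Nat.zero_mul]
      exact Nat.zero_le _
    · obtain ⟨x, rfl⟩ := Nat.exists_eq_add_of_le h
      obtain ⟨y, rfl⟩ := Nat.exists_eq_add_of_le hk
      have e1 : c + 1 + x - c - 1 = x := by omega
      have e2 : c + 1 + x + y - c - 1 = x + y := by omega
      rw [e1, e2]
      nlinarith
  have a3 := Nat.mul_le_mul a1 a2
  have e3 : (k - c) * K * ((k - c - 1) * K) = (k - c) * (k - c - 1) * K ^ 2 := by ring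
  have e4 : (K - c) * k * ((K - c - 1) * k) = (K - c) * (K - c - 1) * k ^ 2 := by ring
  rw [e3, e4, ← h1, ← h2] at a3
  have e5 : 2 * (k - c).choose 2 * K ^ 2 = 2 * ((k - c).choose 2 * K ^ 2) := by ring
  have e6 : 2 * (K - c).choose 2 * k ^ 2 = 2 * ((K - c).choose 2 * k ^ 2) := by ring
  rw [e5, e6] at a3
  omega

theorem h0_four (k : ℕ) (hk : 1 ≤ k) : h0 4 k = 2 * k ^ 2 + 2 := by
  obtain ⟨n, rfl⟩ : ∃ n, k = n + 1 := ⟨k - 1, by omega⟩
  have h1 := h0_add 4 (n + 1)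
  have e1 : n + 1 + 3 - 4 = n := by omega
  rw [e1] at h1
  have h2 := six_choose (n + 1)
  have h3 : 6 * n.choose 3 + 6 * (2 * (n + 1) ^ 2 + 2) = (n + 1 + 1) * (n + 1 + 2) * (n + 1 + 3) := by
    rcases Nat.lt_or_ge n 3 with h | h
    · interval_cases n <;> rfl
    · obtain ⟨m, rfl⟩ : ∃ m, n = m + 3 := ⟨n - 3, by omega⟩
      rw [six_choose]
      ring
  omega

end NumIAux

open NumIAux

theorem quadH (d k K : ℕ) (hd : 4 ≤ d) (hk : k ≤ K) :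
    h0 d k * K ^ 2 ≤ h0 d K * k ^ 2 + 2 * K ^ 2 := by
  induction d, hd using Nat.le_induction with
  | base =>
    rcases Nat.eq_zero_or_pos k with h | h
    · subst h
      have h1 : h0 4 0 = 1 := rfl
      rw [h1]
      nlinarith
    · rw [h0_four k (by omega), h0_four K (by omega)]
      nlinarith [Nat.zero_le (k ^ 2)]
  | succ d hd ih =>
    obtain ⟨c, hc⟩ : ∃ c, d = c + 2 := ⟨d - 2, by omega⟩
    have h1 := choose_sq c k K hk
    rw [h0_succ, h0_succ]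
    have e1 : k + 2 - d = k - c := by omega
    have e2 : K + 2 - d = K - c := by omega
    rw [e1, e2, add_mul, add_mul]
    omega

theorem splitA (d e1 e2 μ : ℕ) (hd : 4 ≤ d) (h1 : 1 ≤ e1) (h5 : 5 ≤ e1 + e2)
    (h : μ * e1 + μ + 1 ≤ 2 * e2 + e1) :
    h0 d e2 + μ * h0 d e1 ≤ h0 d (e1 + e2) := by
  have q1 := quadH d e1 (e1 + e2) hd (by omega)
  have q2 := quadH d e2 (e1 + e2) hd (by omega)
  have hH := h0_ge d (e1 + e2) hd h5
  generalize h0 d (e1 + e2) = H at *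
  generalize h0 d e1 = x at *
  generalize h0 d e2 = y at *
  have hpos : 0 < (e1 + e2) ^ 2 := by positivity
  have s1 : e1 * (μ * e1 + μ + 1) ≤ e1 * (2 * e2 + e1) := Nat.mul_le_mul_left _ h
  have s2 : e2 ^ 2 + μ * e1 ^ 2 + e1 * (μ + 1) ≤ (e1 + e2) ^ 2 := by nlinarith
  have s3 : H * (e2 ^ 2 + μ * e1 ^ 2 + e1 * (μ + 1)) ≤ H * (e1 + e2) ^ 2 :=
    Nat.mul_le_mul_left _ s2
  have s4 : 2 * (e1 + e2) ^ 2 * (1 * (μ + 1)) ≤ H * (e1 * (μ + 1)) := by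
    refine Nat.mul_le_mul (by omega) (Nat.mul_le_mul_right _ h1)
  have s5 : μ * (x * (e1 + e2) ^ 2) ≤ μ * (H * e1 ^ 2 + 2 * (e1 + e2) ^ 2) :=
    Nat.mul_le_mul_left _ q1
  have s6 : (y + μ * x) * (e1 + e2) ^ 2 ≤ H * (e1 + e2) ^ 2 := by
    have e1' : (y + μ * x) * (e1 + e2) ^ 2 = y * (e1 + e2) ^ 2 + μ * (x * (e1 + e2) ^ 2) := by ring
    have e2' : H * (e2 ^ 2 + μ * e1 ^ 2 + e1 * (μ + 1)) =
        H * e2 ^ 2 + μ * (H * e1 ^ 2) + H * (e1 * (μ + 1)) := by ring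
    have e3' : μ * (H * e1 ^ 2 + 2 * (e1 + e2) ^ 2) =
        μ * (H * e1 ^ 2) + 2 * (e1 + e2) ^ 2 * μ := by ring
    have e4' : 2 * (e1 + e2) ^ 2 * (1 * (μ + 1)) =
        2 * (e1 + e2) ^ 2 * μ + 2 * (e1 + e2) ^ 2 := by ring
    rw [e1']
    rw [e2'] at s3
    rw [e3'] at s5
    rw [e4'] at s4
    linarith
  exact Nat.le_of_mul_le_mul_right s6 hpos

theorem T_add (a b : ℕ) : T (a + b) = T a + T b + a * b := by
  have h1 := two_T (a + b)
  have h2 := two_T a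
  have h3 := two_T b
  have h4 : 2 * T (a + b) = 2 * (T a + T b + a * b) := by
    have e : 2 * (T a + T b + a * b) = 2 * T a + 2 * T b + 2 * (a * b) := by ring
    rw [h1, e, h2, h3]
    ring
  exact Nat.eq_of_mul_eq_mul_left (by norm_num) h4

theorem T_add_le (a b μ : ℕ) (h : a + b ≤ μ) : T (a + b) ≤ T b + μ * a := by
  rw [T_add]
  have h2 := two_T a
  have h3 : (a + b) * a ≤ μ * a := Nat.mul_le_mul_right _ h
  have h4 : T a ≤ a * a := by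
    rcases Nat.eq_zero_or_pos a with h5 | h5
    · subst h5
      exact le_rfl
    · nlinarith
  nlinarith

theorem splitB (d e1 e2 μ : ℕ) (hd : 4 ≤ d) (hμ : 1 ≤ μ) (h1 : 4 * μ ≤ e1) (h2 : 4 * μ ≤ e2)
    {r : ℕ} (a b : Fin r → ℕ) (ha : ∀ l, a l ≤ μ) (hb : ∀ l, b l ≤ μ)
    (hA : ∑ l, T (a l) ≤ h0 d e1) (hB : ∑ l, T (b l) ≤ h0 d e2) :
    h0 d e1 + h0 d e2 + ∑ l, a l * b l ≤ h0 d (e1 + e2) := by
  have q1 := quadH d e1 (e1 + e2) hd (by omega)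
  have q2 := quadH d e2 (e1 + e2) hd (by omega)
  have hH := h0_ge d (e1 + e2) hd (by omega)
  -- the mixed sum
  have hsq : ∀ x, x ≤ μ → (μ + 1) * x ^ 2 ≤ 2 * μ * T x := by
    intro x hx
    have h3 := two_T x
    have e1' : 2 * μ * T x = μ * (2 * T x) := by ring
    rw [e1', h3]
    nlinarith [Nat.mul_le_mul_right x hx]
  have hterm : ∀ l, 2 * ((μ + 1) * (e1 * e2) * (a l * b l)) ≤
      2 * μ * (e2 ^ 2 * T (a l) + e1 ^ 2 * T (b l)) := by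
    intro l
    have h3 := Nat.mul_le_mul_left (e2 ^ 2) (hsq (a l) (ha l))
    have h4 := Nat.mul_le_mul_left (e1 ^ 2) (hsq (b l) (hb l))
    have h5 : 2 * ((e2 * a l) * (e1 * b l)) ≤ (e2 * a l) ^ 2 + (e1 * b l) ^ 2 := by
      have := two_mul_le_add_sq (e2 * a l) (e1 * b l)
      nlinarith
    have h6 := Nat.mul_le_mul_left (μ + 1) h5
    nlinarith
  have hsum : (μ + 1) * (e1 * e2) * ∑ l, a l * b l ≤
      μ * (e2 ^ 2 * h0 d e1 + e1 ^ 2 * h0 d e2) := by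
    have h3 : 2 * ((μ + 1) * (e1 * e2) * ∑ l, a l * b l) ≤
        2 * μ * (e2 ^ 2 * ∑ l, T (a l) + e1 ^ 2 * ∑ l, T (b l)) := by
      have h4 := Finset.sum_le_sum (s := Finset.univ) fun l _ => hterm l
      rw [← Finset.mul_sum, ← Finset.mul_sum, ← Finset.mul_sum, Finset.sum_add_distrib,
        ← Finset.mul_sum, ← Finset.mul_sum] at h4
      exact h4
    have h5 : 2 * μ * (e2 ^ 2 * ∑ l, T (a l) + e1 ^ 2 * ∑ l, T (b l)) ≤
        2 * μ * (e2 ^ 2 * h0 d e1 + e1 ^ 2 * h0 d e2) :=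
      Nat.mul_le_mul_left _ (add_le_add (Nat.mul_le_mul_left _ hA) (Nat.mul_le_mul_left _ hB))
    have h6 : 2 * μ * (e2 ^ 2 * h0 d e1 + e1 ^ 2 * h0 d e2) =
        2 * (μ * (e2 ^ 2 * h0 d e1 + e1 ^ 2 * h0 d e2)) := by ring
    rw [h6] at h5
    omega
  generalize h0 d (e1 + e2) = H at *
  generalize h0 d e1 = x at *
  generalize h0 d e2 = y at *
  generalize ∑ l, a l * b l = S at *
  have he1 : 0 < e1 := by omega
  have he2 : 0 < e2 := by omega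
  have hpos : 0 < (μ + 1) * (e1 * e2) * (e1 + e2) ^ 2 := by positivity
  have key : 4 * (μ + 1) * (e1 * e2) + 2 * μ * (e1 ^ 2 + e2 ^ 2) ≤ 4 * (e1 * e2) ^ 2 := by
    have k1 : 16 * μ ^ 2 ≤ e1 * e2 := by nlinarith
    have k2 : 16 * μ ^ 2 * (e1 * e2) ≤ (e1 * e2) ^ 2 := by nlinarith
    have k3 : 16 * μ ^ 2 ≤ e2 ^ 2 := by nlinarith
    have k4 : 16 * μ ^ 2 ≤ e1 ^ 2 := by nlinarith
    have k5 : 16 * μ ^ 2 * e1 ^ 2 ≤ (e1 * e2) ^ 2 := by
      have := Nat.mul_le_mul_right (e1 ^ 2) k3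
      nlinarith
    have k6 : 16 * μ ^ 2 * e2 ^ 2 ≤ (e1 * e2) ^ 2 := by
      have := Nat.mul_le_mul_right (e2 ^ 2) k4
      nlinarith
    have k7 : μ ≤ μ ^ 2 := by nlinarith
    have k8 : 4 * (μ + 1) * (e1 * e2) ≤ 8 * μ ^ 2 * (e1 * e2) :=
      Nat.mul_le_mul_right _ (by nlinarith)
    have k9 : 2 * μ * (e1 ^ 2 + e2 ^ 2) ≤ 2 * μ ^ 2 * (e1 ^ 2 + e2 ^ 2) :=
      Nat.mul_le_mul_right _ (by omega)
    nlinarith
  have main : (μ + 1) * (e1 * e2) * (e1 + e2) ^ 2 * (x + y + S) ≤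
      (μ + 1) * (e1 * e2) * (e1 + e2) ^ 2 * H := by
    have m1 := Nat.mul_le_mul_left ((μ + 1) * (e1 * e2)) q1
    have m2 := Nat.mul_le_mul_left ((μ + 1) * (e1 * e2)) q2
    have m3 := Nat.mul_le_mul_left ((e1 + e2) ^ 2) hsum
    have m4 := Nat.mul_le_mul_left (μ * e2 ^ 2) q1
    have m5 := Nat.mul_le_mul_left (μ * e1 ^ 2) q2
    have m6 := Nat.mul_le_mul_left ((e1 + e2) ^ 2) key
    have hH' : 2 * (e1 + e2) ^ 2 ≤ H := by omega
    have m7 := Nat.mul_le_mul_left (2 * (e1 * e2) ^ 2) hH'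
    nlinarith
  exact Nat.le_of_mul_le_mul_left main hpos

end FPS
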