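import Pool.Agent.Lib.FPI.Val
import Pool.Agent.Lib.FPI.Avoid
import Pool.Agent.Lib.FPI.NumI
import Pool.Agent.Lib.FPI.GenI

/-!
# FPI.AsmI: the general member is irreducible in large degree

For a general surface and general points, all the series in degrees `e' ≤ e` with multiplicities
`≤ m` have the generic dimension. A decomposition `G ≡ G1 G2` of a member of the series gives
multiplicities `a l + b l = m l` of `G1`, `G2` (`val_mul`); the products form a set of dimension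
`N1 + N2 - 1 < N` (`avoid`, `splitA`, `splitB`).
-/

namespace FPS

open MvPolynomial

namespace AsmIAux

theorem mults_le (F : MvPolynomial (Fin 3) ℂ) (e : ℕ) {r : ℕ} (q : Fin r → Fin 3 → ℂ)
    (m : Fin r → ℕ) : mults F e ≤ series F e q m := by
  rintro G ⟨h4, h5⟩
  exact ⟨h4, fun l => Ideal.mem_sup_left (Ideal.mem_span_singleton.2 h5)⟩

theorem mem_series {F : MvPolynomial (Fin 3) ℂ} {e : ℕ} {r : ℕ} {q : Fin r → Fin 3 → ℂ}
    {m : Fin r → ℕ} {G : MvPolynomial (Fin 3) ℂ} :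
    G ∈ series F e q m ↔ G.totalDegree ≤ e ∧ ∀ l, G ∈ JI F (q l) (m l) := Iff.rfl

theorem dims (d e μ e1 : ℕ) (hd : 4 ≤ d) (hμ : 2 ≤ μ) (he : 400 * μ ≤ e) (he5 : 5 * μ ^ 6 ≤ e)
    {r : ℕ} (m : Fin r → ℕ) (hm : ∀ l, m l ≤ μ) (F : MvPolynomial (Fin 3) ℂ)
    (hG : GenS d e μ F m) (hlt : ∑ l, T (m l) < h0 d e) (h1 : 1 ≤ e1) (h2 : 2 * e1 ≤ e)
    (a : Fin r → ℕ) (ha : ∀ l, a l ≤ m l)
    (p1 : Module.finrank ℂ (mults F e1) < Dm F e1 a)
    (p2 : Module.finrank ℂ (mults F (e - e1)) < Dm F (e - e1) (fun l => m l - a l)) :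
    Dm F e1 a + Dm F (e - e1) (fun l => m l - a l) ≤
      (h0 d e - ∑ l, T (m l)) + Module.finrank ℂ (mults F e1)
        + Module.finrank ℂ (mults F (e - e1)) := by
  have h6 : μ ^ 6 = μ * μ ^ 5 := by ring
  have h7 : 2 * (5 * μ ^ 5) ≤ 5 * μ ^ 6 := by
    rw [h6]
    nlinarith [Nat.zero_le (μ ^ 5), Nat.mul_le_mul_right (μ ^ 5) hμ]
  have h800 : 400 * 2 ≤ 400 * μ := Nat.mul_le_mul_left 400 hμ
  have he2a : 400 ≤ e - e1 := by omega
  have he2b : 5 * μ ^ 5 ≤ e - e1 := by omega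
  have hT : ∑ l, T (m l) = ∑ l, T (a l) + ∑ l, T (m l - a l) + ∑ l, a l * (m l - a l) := by
    rw [← Finset.sum_add_distrib, ← Finset.sum_add_distrib]
    refine Finset.sum_congr rfl fun l _ => ?_
    have := T_add (a l) (m l - a l)
    rw [show a l + (m l - a l) = m l by have := ha l; omega] at this
    exact this
  have hb := hG.exact (e - e1) (by omega) he2a he2b (fun l => m l - a l) fun l => Nat.sub_le _ _
  beta_reduce at hb
  have hee : e1 + (e - e1) = e := by omega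
  by_cases hB : 400 ≤ e1 ∧ 5 * μ ^ 5 ≤ e1
  · have haa := hG.exact e1 (by omega) hB.1 hB.2 a ha
    have hs := splitB d e1 (e - e1) μ hd (by omega) (by
        have : 4 * μ ≤ 5 * μ ^ 5 := by
          have h8 : μ ^ 1 ≤ μ ^ 5 := Nat.pow_le_pow_right (by omega) (by omega)
          rw [pow_one] at h8
          omega
        omega) (by
        have : 4 * μ ≤ 5 * μ ^ 5 := by
          have h8 : μ ^ 1 ≤ μ ^ 5 := Nat.pow_le_pow_right (by omega) (by omega)
          rw [pow_one] at h8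
          omega
        omega) a (fun l => m l - a l) (fun l => (ha l).trans (hm l))
      (fun l => (Nat.sub_le _ _).trans (hm l)) (by omega) (by
        beta_reduce
        omega)
    rw [hee] at hs
    beta_reduce at hs
    omega
  · have hdr := hG.drop e1 h1 (by omega) a ha p1
    have hs := splitA d e1 (e - e1) μ hd h1 (by omega) (by
      have h9 : (μ + 1) * (e1 + 1) ≤ 2 * e := by
        rcases Nat.lt_or_ge e1 400 with h10 | h10
        · calc (μ + 1) * (e1 + 1) ≤ (μ + 1) * 400 := Nat.mul_le_mul_left _ (by omega)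
            _ ≤ 2 * (400 * μ) := by omega
            _ ≤ 2 * e := by omega
        · have h11 : e1 + 1 ≤ 5 * μ ^ 5 := by
            by_contra hcon
            exact hB ⟨h10, by omega⟩
          calc (μ + 1) * (e1 + 1) ≤ (μ + 1) * (5 * μ ^ 5) := Nat.mul_le_mul_left _ h11
            _ ≤ (2 * μ) * (5 * μ ^ 5) := Nat.mul_le_mul_right _ (by omega)
            _ = 2 * (5 * μ ^ 6) := by ring
            _ ≤ 2 * e := by omega
      have h12 : (μ + 1) * (e1 + 1) = μ * e1 + μ + 1 + e1 := by ring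
      omega)
    rw [hee] at hs
    have hT2 : ∑ l, T (m l) ≤ ∑ l, T (m l - a l) + μ * ∑ l, a l := by
      rw [Finset.mul_sum, ← Finset.sum_add_distrib]
      refine Finset.sum_le_sum fun l _ => ?_
      have h13 := ha l
      have := T_add_le (a l) (m l - a l) μ (by have := hm l; omega)
      rw [show a l + (m l - a l) = m l by omega] at this
      exact this
    obtain ⟨x, hx⟩ : ∃ x, Dm F e1 a = Module.finrank ℂ (mults F e1) + x :=
      ⟨Dm F e1 a - Module.finrank ℂ (mults F e1), by omega⟩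
    have h14 : μ * (x + ∑ l, a l) ≤ μ * h0 d e1 := Nat.mul_le_mul_left _ (by omega)
    rw [mul_add] at h14
    have h15 : x ≤ μ * x := Nat.le_mul_of_pos_left _ (by omega)
    omega

end AsmIAux

open AsmIAux

theorem irr_F (d e μ : ℕ) (hd : 4 ≤ d) (hμ : 2 ≤ μ) (he : 400 * μ ≤ e) (he5 : 5 * μ ^ 6 ≤ e)
    {r : ℕ} (m : Fin r → ℕ) (hm : ∀ l, m l ≤ μ) (hlt : ∑ l, T (m l) < h0 d e)
    (F : MvPolynomial (Fin 3) ℂ) (hG : GenS d e μ F m) :
    ∃ Ψ : MvPolynomial (Fin r × Fin 3) ℂ,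
      (∃ q : Fin r → Fin 3 → ℂ, (∀ l, eval (q l) F = 0) ∧
        eval (fun i : Fin r × Fin 3 => q i.1 i.2) Ψ ≠ 0) ∧
      ∀ q : Fin r → Fin 3 → ℂ, (∀ l, eval (q l) F = 0) →
        eval (fun i : Fin r × Fin 3 => q i.1 i.2) Ψ ≠ 0 →
        Module.finrank ℂ (series F e q m)
          = Module.finrank ℂ (mults F e) + (h0 d e - ∑ l, T (m l)) ∧
        ∃ P : MvPolynomial (Fin 3 →₀ ℕ) ℂ,
          (∃ G ∈ series F e q m, eval (fun α => coeff α G) P ≠ 0) ∧
          ∀ G ∈ series F e q m, eval (fun α => coeff α G) P ≠ 0 →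
            ∀ e1 e2 : ℕ, 1 ≤ e1 → 1 ≤ e2 → e1 + e2 = e → ∀ G1 G2 : MvPolynomial (Fin 3) ℂ,
              G1.totalDegree ≤ e1 → G2.totalDegree ≤ e2 → ¬ F ∣ G - G1 * G2 := by
  classical
  set S : Finset (ℕ × (Fin r → ℕ)) :=
    Finset.range (e + 1) ×ˢ Fintype.piFinset (fun l => Finset.range (m l + 1)) with hS
  have hmem : ∀ e' c, e' ≤ e → (∀ l, c l ≤ m l) → (e', c) ∈ S := by
    intro e' c h1 h2
    rw [hS, Finset.mem_product, Fintype.mem_piFinset]
    exact ⟨Finset.mem_range.2 (by change e' < e + 1; omega), fun l =>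
      Finset.mem_range.2 (Nat.lt_succ_of_le (h2 l))⟩
  have hex : ∀ i : ℕ × (Fin r → ℕ), ∃ Ψ : MvPolynomial (Fin r × Fin 3) ℂ,
      (∃ q : Fin r → Fin 3 → ℂ, (∀ l, eval (q l) F = 0) ∧
        eval (fun k : Fin r × Fin 3 => q k.1 k.2) Ψ ≠ 0) ∧
      ∀ q : Fin r → Fin 3 → ℂ, (∀ l, eval (q l) F = 0) →
        eval (fun k : Fin r × Fin 3 => q k.1 k.2) Ψ ≠ 0 →
        Module.finrank ℂ (series F i.1 q i.2) = Dm F i.1 i.2 ∧ ∀ l, Sm F (q l) := by
    intro i
    obtain ⟨q0, hq0, hd0⟩ := Dm_attained F hG.sm i.1 i.2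
    obtain ⟨Ψ, h0, h⟩ := open_fixed F i.1 i.2 q0 (fun l => (hq0 l).1) (fun l => (hq0 l).2)
    refine ⟨Ψ, ⟨q0, fun l => (hq0 l).1, h0⟩, fun q hq hne => ?_⟩
    obtain ⟨h1, -, h2⟩ := h q hq hne
    have h3 : ∀ l, Sm F (q l) := fun l => ⟨hq l, h2 l⟩
    exact ⟨le_antisymm (hd0 ▸ h1) (Dm_le F i.1 i.2 q h3), h3⟩
  choose Ψ hΨ0 hΨ using hex
  refine ⟨∏ i ∈ S, Ψ i, ?_, fun q hq hne => ?_⟩
  · obtain ⟨q, hq, hne⟩ := prod_irr_finset F hG.prime S Ψ fun i _ => hΨ0 i
    refine ⟨q, hq, ?_⟩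
    rw [map_prod]
    exact Finset.prod_ne_zero_iff.2 hne
  rw [map_prod] at hne
  have hne' := Finset.prod_ne_zero_iff.1 hne
  have hdim : ∀ e' c, e' ≤ e → (∀ l, c l ≤ m l) →
      Module.finrank ℂ (series F e' q c) = Dm F e' c := fun e' c h1 h2 =>
    (hΨ (e', c) q hq (hne' _ (hmem e' c h1 h2))).1
  have hsm : ∀ l, Sm F (q l) := (hΨ (0, fun _ => 0) q hq (hne' _ (hmem 0 _ (Nat.zero_le _)
    fun l => Nat.zero_le _))).2
  have h6 : 5 * μ ^ 5 ≤ 5 * μ ^ 6 :=
    Nat.mul_le_mul_left _ (Nat.pow_le_pow_right (by omega) (by omega))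
  have he400 : 400 ≤ e := by omega
  have hVdim : Module.finrank ℂ (series F e q m)
      = Module.finrank ℂ (mults F e) + (h0 d e - ∑ l, T (m l)) := by
    rw [hdim e m le_rfl fun _ => le_rfl]
    exact hG.exact e le_rfl he400 (by omega) m fun _ => le_rfl
  refine ⟨hVdim, ?_⟩
  obtain ⟨N, hN⟩ : ∃ N, N = h0 d e - ∑ l, T (m l) := ⟨_, rfl⟩
  have hN1 : 1 ≤ N := by omega
  have hfinV := series_fin F e q m
  obtain ⟨π, hπ, hsurj⟩ := exists_pi (series F e q m) (mults F e) (mults_le F e q m) N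
    (by rw [hVdim, hN])
  -- the polynomials for the splittings
  have hav : ∀ i : ℕ × (Fin r → ℕ), ∃ P : MvPolynomial (Fin N) ℂ, P ≠ 0 ∧
      (1 ≤ i.1 → 2 * i.1 ≤ e → (∀ l, i.2 l ≤ m l) → ∀ G, G ∉ mults F e →
        ∀ x ∈ series F i.1 q i.2, ∀ y ∈ series F (e - i.1) q (fun l => m l - i.2 l),
          G - x * y ∈ mults F e → eval (π G) P = 0) := by
    intro i
    by_cases hi : 1 ≤ i.1 ∧ 2 * i.1 ≤ e ∧ ∀ l, i.2 l ≤ m l
    · obtain ⟨hi1, hi2, hi3⟩ := hi
      have hf1 := series_fin F i.1 q i.2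
      have hf2 := series_fin F (e - i.1) q (fun l => m l - i.2 l)
      obtain ⟨P, hP0, hP⟩ := avoid (series F e q m) (mults F e) (series F i.1 q i.2)
        (mults F i.1) (series F (e - i.1) q (fun l => m l - i.2 l)) (mults F (e - i.1))
        (mults_le _ _ _ _) (mults_le _ _ _ _)
        (by
          intro x hx y hy
          refine ⟨(totalDegree_mul _ _).trans ?_, fun l => ?_⟩
          · have h1 := hx.1
            have h2 := hy.1
            omega
          · have h3 := JI_mul F (q l) (i.2 l) (m l - i.2 l) x y (hx.2 l) (hy.2 l)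
            rw [show i.2 l + (m l - i.2 l) = m l by have := hi3 l; omega] at h3
            exact h3)
        (by
          intro x hx y hy
          refine ⟨(totalDegree_mul _ _).trans ?_, Dvd.dvd.mul_right hx.2 y⟩
          have h1 := hx.1
          have h2 := hy.1
          omega)
        (by
          intro x hx y hy
          refine ⟨(totalDegree_mul _ _).trans ?_, Dvd.dvd.mul_left hy.2 x⟩
          have h1 := hx.1
          have h2 := hy.1
          omega)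
        N
        (by
          intro p1 p2
          rw [hdim i.1 i.2 (by omega) hi3] at p1 ⊢
          rw [hdim (e - i.1) _ (by omega) fun l => Nat.sub_le _ _] at p2 ⊢
          rw [hN]
          exact dims d e μ i.1 hd hμ he he5 m hm F hG hlt hi1 hi2 i.2 hi3 p1 p2)
        π (fun G hG' => (hπ G (mults_le F e q m hG')).2 hG')
      exact ⟨P, hP0, fun _ _ _ => hP⟩
    · exact ⟨1, one_ne_zero, fun a b c => absurd ⟨a, b, c⟩ hi⟩
  choose P hP0 hP using hav
  let n0 : Fin N := ⟨0, by omega⟩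
  set Q : MvPolynomial (Fin N) ℂ := (∏ i ∈ S, P i) * X n0 with hQ
  have hQ0 : Q ≠ 0 := mul_ne_zero (Finset.prod_ne_zero_iff.2 fun i _ => hP0 i) (X_ne_zero n0)
  obtain ⟨t, ht⟩ : ∃ t, eval t Q ≠ 0 := by
    by_contra hcon
    push Not at hcon
    exact hQ0 (MvPolynomial.funext fun x => by rw [hcon x, map_zero])
  obtain ⟨P', hP'⟩ := pi_coeff e N π Q
  refine ⟨P', ?_, fun G hGV hGP => ?_⟩
  · obtain ⟨G, hGV, hGt⟩ := hsurj t
    refine ⟨G, hGV, ?_⟩
    rw [hP' G hGV.1, hGt]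
    exact ht
  rw [hP' G hGV.1, hQ, map_mul, map_prod, eval_X] at hGP
  have hGM : G ∉ mults F e := by
    intro hmem'
    apply right_ne_zero_of_mul hGP
    rw [(hπ G hGV).2 hmem']
    rfl
  have hGP' := Finset.prod_ne_zero_iff.1 (left_ne_zero_of_mul hGP)
  -- the case `e1 ≤ e2`
  have key : ∀ e1 e2 : ℕ, 1 ≤ e1 → e1 ≤ e2 → e1 + e2 = e → ∀ G1 G2 : MvPolynomial (Fin 3) ℂ,
      G1.totalDegree ≤ e1 → G2.totalDegree ≤ e2 → ¬ F ∣ G - G1 * G2 := by
    intro e1 e2 h1 h12 hee G1 G2 hG1 hG2 hdvd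
    have hprod : ∀ l, G1 * G2 ∈ JI F (q l) (m l) := by
      intro l
      have h3 : G ∈ JI F (q l) (m l) := hGV.2 l
      have h4 : G - G1 * G2 ∈ JI F (q l) (m l) :=
        Ideal.mem_sup_left (Ideal.mem_span_singleton.2 hdvd)
      have h5 : G1 * G2 = G - (G - G1 * G2) := by ring
      rw [h5]
      exact (JI F (q l) (m l)).sub_mem h3 h4
    choose a b hab hGa hGb using fun l => val_mul F (q l) (hsm l) (m l) G1 G2 (hprod l)
    have he2 : e - e1 = e2 := by omega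
    have hbe : (fun l => m l - a l) = b := by
      funext l
      have := hab l
      omega
    have hal : ∀ l, a l ≤ m l := fun l => by
      have := hab l
      omega
    refine hGP' (e1, a) (hmem e1 a (by omega) hal) ?_
    refine hP (e1, a) h1 (by change 2 * e1 ≤ e; omega) hal G hGM G1 ⟨hG1, hGa⟩ G2 ?_ ?_
    · change G2 ∈ series F (e - e1) q (fun l => m l - a l)
      rw [he2, hbe]
      exact ⟨hG2, hGb⟩
    · refine ⟨?_, hdvd⟩
      refine (totalDegree_sub _ _).trans (max_le hGV.1 ?_)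
      exact (totalDegree_mul _ _).trans (by omega)
  intro e1 e2 h1 h2 hee G1 G2 hG1 hG2
  rcases le_total e1 e2 with h | h
  · exact key e1 e2 h1 h hee G1 G2 hG1 hG2
  · rw [mul_comm]
    exact key e2 e1 h2 h (by omega) G2 G1 hG2 hG1

theorem irr_large (d e μ : ℕ) (hd : 4 ≤ d) (hμ : 2 ≤ μ) (he : 400 * μ ≤ e)
    (he5 : 5 * μ ^ 6 ≤ e) {r : ℕ} (m : Fin r → ℕ) (hm : ∀ l, m l ≤ μ)
    (hlt : ∑ l, T (m l) < h0 d e) :
    ∃ Φ : MvPolynomial (Fin 3 →₀ ℕ) ℂ,
      (∃ F : MvPolynomial (Fin 3) ℂ, F.totalDegree ≤ d ∧ eval (fun α => coeff α F) Φ ≠ 0) ∧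
      ∀ F : MvPolynomial (Fin 3) ℂ, F.totalDegree ≤ d → eval (fun α => coeff α F) Φ ≠ 0 →
        F.totalDegree = d ∧ Prime F ∧
        ∃ Ψ : MvPolynomial (Fin r × Fin 3) ℂ,
          (∃ q : Fin r → Fin 3 → ℂ, (∀ l, eval (q l) F = 0) ∧
            eval (fun i : Fin r × Fin 3 => q i.1 i.2) Ψ ≠ 0) ∧
          ∀ q : Fin r → Fin 3 → ℂ, (∀ l, eval (q l) F = 0) →
            eval (fun i : Fin r × Fin 3 => q i.1 i.2) Ψ ≠ 0 →
            Module.finrank ℂ (series F e q m)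
              = Module.finrank ℂ (mults F e) + (h0 d e - ∑ l, T (m l)) ∧
            ∃ P : MvPolynomial (Fin 3 →₀ ℕ) ℂ,
              (∃ G ∈ series F e q m, eval (fun α => coeff α G) P ≠ 0) ∧
              ∀ G ∈ series F e q m, eval (fun α => coeff α G) P ≠ 0 →
                ∀ e1 e2 : ℕ, 1 ≤ e1 → 1 ≤ e2 → e1 + e2 = e → ∀ G1 G2 : MvPolynomial (Fin 3) ℂ,
                  G1.totalDegree ≤ e1 → G2.totalDegree ≤ e2 → ¬ F ∣ G - G1 * G2 := by
  obtain ⟨Φ, h, hΦ⟩ := gen_surf d e μ hd hμ (by omega) m hm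
  refine ⟨Φ, h, fun F hF hne => ?_⟩
  have hG := hΦ F hF hne
  exact ⟨hG.deg, hG.prime, irr_F d e μ hd hμ he he5 m hm hlt F hG⟩

end FPS
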