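import Pool.Agent.Lib.FPI.AsmI

/-!
# FPI.MainI: expected dimension and irreducibility in large degree, in one theorem
-/

namespace FPS

open MvPolynomial

theorem large_all (d e μ : ℕ) (hd : 4 ≤ d) (hμ : 2 ≤ μ) (he : 400 ≤ e)
    (he5 : 5 * μ ^ 5 ≤ e) {r : ℕ} (m : Fin r → ℕ) (hm : ∀ l, m l ≤ μ) :
    ∃ Φ : MvPolynomial (Fin 3 →₀ ℕ) ℂ,
      (∃ F : MvPolynomial (Fin 3) ℂ, F.totalDegree ≤ d ∧ eval (fun α => coeff α F) Φ ≠ 0) ∧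
      ∀ F : MvPolynomial (Fin 3) ℂ, F.totalDegree ≤ d → eval (fun α => coeff α F) Φ ≠ 0 →
        F.totalDegree = d ∧ Prime F ∧
        ∃ Ψ : MvPolynomial (Fin r × Fin 3) ℂ,
          (∃ q : Fin r → Fin 3 → ℂ, (∀ l, eval (q l) F = 0) ∧
            eval (fun i : Fin r × Fin 3 => q i.1 i.2) Ψ ≠ 0) ∧
          ∀ q : Fin r → Fin 3 → ℂ, (∀ l, eval (q l) F = 0) →
            eval (fun i : Fin r × Fin 3 => q i.1 i.2) Ψ ≠ 0 →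
            Module.finrank ℂ (series F e q m)
              = Module.finrank ℂ (mults F e) + (h0 d e - ∑ l, T (m l)) ∧
            (400 * μ ≤ e → 5 * μ ^ 6 ≤ e → ∑ l, T (m l) < h0 d e →
              ∃ P : MvPolynomial (Fin 3 →₀ ℕ) ℂ,
                (∃ G ∈ series F e q m, eval (fun α => coeff α G) P ≠ 0) ∧
                ∀ G ∈ series F e q m, eval (fun α => coeff α G) P ≠ 0 →
                  ∀ e1 e2 : ℕ, 1 ≤ e1 → 1 ≤ e2 → e1 + e2 = e → ∀ G1 G2 : MvPolynomial (Fin 3) ℂ,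
                    G1.totalDegree ≤ e1 → G2.totalDegree ≤ e2 → ¬ F ∣ G - G1 * G2) := by
  obtain ⟨Φ, h, hΦ⟩ := gen_surf d e μ hd hμ (by omega) m hm
  refine ⟨Φ, h, fun F hF hne => ?_⟩
  have hG := hΦ F hF hne
  refine ⟨hG.deg, hG.prime, ?_⟩
  by_cases hc : 400 * μ ≤ e ∧ 5 * μ ^ 6 ≤ e ∧ ∑ l, T (m l) < h0 d e
  · obtain ⟨Ψ, h1, h2⟩ := irr_F d e μ hd hμ hc.1 hc.2.1 m hm hc.2.2 F hG
    refine ⟨Ψ, h1, fun q hq hqn => ?_⟩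
    obtain ⟨h3, h4⟩ := h2 q hq hqn
    exact ⟨h3, fun _ _ _ => h4⟩
  · obtain ⟨q0, hq0, hd0⟩ := Dm_attained F hG.sm e m
    obtain ⟨Ψ, h0', h'⟩ := open_fixed F e m q0 (fun l => (hq0 l).1) (fun l => (hq0 l).2)
    refine ⟨Ψ, ⟨q0, fun l => (hq0 l).1, h0'⟩, fun q hq hqn => ⟨?_, fun a b c =>
      absurd ⟨a, b, c⟩ hc⟩⟩
    obtain ⟨h1, -, h2⟩ := h' q hq hqn
    have h3 : ∀ l, Sm F (q l) := fun l => ⟨hq l, h2 l⟩
    have h4 := le_antisymm (hd0 ▸ h1) (Dm_le F e m q h3)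
    rw [h4]
    exact hG.exact e le_rfl he he5 m fun _ => le_rfl

end FPS
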