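import Pool.Agent.Lib.FPW.MacV

/-!
# FPI.Val: the order of vanishing at a smooth point is a valuation

Derivations `D = dlt F t = C t * dl F 0 + dl F 1` (`t : ℂ`); `D^[k]`.
PROOF. `dlt_pow`: if `G ∈ JI F p k` then `eval p (D^[k] G) = ∑_i (k.choose i) t^i eval p (wd F (cw k i) G)`
(expand `D^[k]` as the sum over the words of length `k` of `t^(number of zeros) wd F w`, `wd_perm`); in
particular the right side is the value at `t` of the polynomial with coefficients
`(k.choose i) * lead F p k G i`, which is nonzero if `G ∉ JI F p (k+1)` (`mem_succ_iff_lead`).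
`dlt_zero`: if `G ∈ JI F p m`, then `eval p (D^[k] G) = 0` for `k < m` (`mem_JI_words`).
`order_mul`: let `G1 ∈ JI F p a`, `G1 ∉ JI F p (a+1)`, `G2 ∈ JI F p b`, `G2 ∉ JI F p (b+1)`. Choose `t` with
`eval p (D^[a] G1) ≠ 0` and `eval p (D^[b] G2) ≠ 0` (two nonzero polynomials in `t`). By Leibniz
(`Derivation.iterate_mul`-style: `D^[n] (G1 G2) = ∑ (n.choose i) D^[i] G1 D^[n-i] G2`; prove by induction if
missing in Mathlib) and `dlt_zero`, `eval p (D^[a+b] (G1 * G2)) = ((a+b).choose a) * .. * .. ≠ 0`, so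
`G1 * G2 ∉ JI F p (a + b + 1)`.
`val_mul`: if `G1 ∈ JI F p m` take `a = m`, `b = 0` (`JI F p 0 = ⊤`). Otherwise let `a < m` be maximal with
`G1 ∈ JI F p a`; if `G2 ∈ JI F p (m - a)` done; otherwise let `b < m - a` be maximal with `G2 ∈ JI F p b`;
`order_mul` gives `G1 * G2 ∉ JI F p (a + b + 1)`, and `a + b + 1 ≤ m`: contradiction (`JI` is antitone).
-/

namespace FPS

open MvPolynomial

namespace ValAux

/-- the derivation `t δ_0 + δ_1` -/
noncomputable def dlt (F : MvPolynomial (Fin 3) ℂ) (t : ℂ) :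
    Derivation ℂ (MvPolynomial (Fin 3) ℂ) (MvPolynomial (Fin 3) ℂ) :=
  t • dl F 0 + dl F 1

theorem dlt_apply (F : MvPolynomial (Fin 3) ℂ) (t : ℂ) (G : MvPolynomial (Fin 3) ℂ) :
    dlt F t G = t • dl F 0 G + dl F 1 G := rfl

theorem dlt_self (F : MvPolynomial (Fin 3) ℂ) (t : ℂ) : dlt F t F = 0 := by
  rw [dlt_apply, dl_self, dl_self, smul_zero, add_zero]

theorem dlt_JI (F : MvPolynomial (Fin 3) ℂ) (p : Fin 3 → ℂ) (t : ℂ) (j : ℕ)
    (G : MvPolynomial (Fin 3) ℂ) (hG : G ∈ JI F p (j + 1)) : dlt F t G ∈ JI F p j :=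
  sym_der_JI F p j (dlt F t) (dlt_self F t) G hG

/-- the value of the `k`-th iterate -/
noncomputable def ev (F : MvPolynomial (Fin 3) ℂ) (p : Fin 3 → ℂ) (t : ℂ) :
    ℕ → MvPolynomial (Fin 3) ℂ → ℂ
  | 0, G => eval p G
  | k + 1, G => ev F p t k (dlt F t G)

theorem ev_add (F : MvPolynomial (Fin 3) ℂ) (p : Fin 3 → ℂ) (t : ℂ) (k : ℕ)
    (G H : MvPolynomial (Fin 3) ℂ) : ev F p t k (G + H) = ev F p t k G + ev F p t k H := by
  induction k generalizing G H with
  | zero => exact map_add _ _ _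
  | succ k ih =>
    change ev F p t k (dlt F t (G + H)) = ev F p t k (dlt F t G) + ev F p t k (dlt F t H)
    rw [map_add, ih]

theorem ev_smul (F : MvPolynomial (Fin 3) ℂ) (p : Fin 3 → ℂ) (t : ℂ) (k : ℕ) (c : ℂ)
    (G : MvPolynomial (Fin 3) ℂ) : ev F p t k (c • G) = c * ev F p t k G := by
  induction k generalizing G with
  | zero =>
    change eval p (c • G) = c * eval p G
    rw [smul_eval]
  | succ k ih =>
    change ev F p t k (dlt F t (c • G)) = c * ev F p t k (dlt F t G)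
    rw [Derivation.map_smul, ih]

/-- the iterates of order smaller than the multiplicity vanish -/
theorem ev_zero (F : MvPolynomial (Fin 3) ℂ) (p : Fin 3 → ℂ) (hp : Sm F p) (t : ℂ) (k j : ℕ)
    (G : MvPolynomial (Fin 3) ℂ) (hG : G ∈ JI F p (j + 1 + k)) : ev F p t k G = 0 := by
  induction k generalizing G with
  | zero =>
    have h1 : G ∈ JI F p 1 := by
      induction j with
      | zero => exact hG
      | succ j ih => exact ih (JI_succ_le F p (j + 1) hG)
    exact (mem_JI_one F p hp.1 G).1 h1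
  | succ k ih => exact ih _ (dlt_JI F p t (j + 1 + k) G hG)

/-- the value as a polynomial in `t` -/
noncomputable def PP (F : MvPolynomial (Fin 3) ℂ) (p : Fin 3 → ℂ) :
    ℕ → MvPolynomial (Fin 3) ℂ → Polynomial ℂ
  | 0, G => Polynomial.C (eval p G)
  | k + 1, G => Polynomial.X * PP F p k (dl F 0 G) + PP F p k (dl F 1 G)

theorem eval_PP (F : MvPolynomial (Fin 3) ℂ) (p : Fin 3 → ℂ) (t : ℂ) (k : ℕ)
    (G : MvPolynomial (Fin 3) ℂ) : (PP F p k G).eval t = ev F p t k G := by
  induction k generalizing G with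
  | zero => exact Polynomial.eval_C
  | succ k ih =>
    change (Polynomial.X * PP F p k (dl F 0 G) + PP F p k (dl F 1 G)).eval t =
      ev F p t k (dlt F t G)
    rw [Polynomial.eval_add, Polynomial.eval_mul, Polynomial.eval_X, ih, ih, dlt_apply, ev_add,
      ev_smul]

theorem wd_snoc (F : MvPolynomial (Fin 3) ℂ) (w : List (Fin 2)) (i : Fin 2)
    (G : MvPolynomial (Fin 3) ℂ) : wd F w (dl F i G) = wd F (w ++ [i]) G := by
  rw [wd_append]
  rfl

theorem cw_snoc_zero (k i : ℕ) : (cw k i ++ [0]).Perm (cw (k + 1) (i + 1)) := by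
  rw [← cw_zero_cons]
  exact List.perm_append_comm

theorem cw_snoc_one (k i : ℕ) (h : i ≤ k) : (cw k i ++ [1]).Perm (cw (k + 1) i) :=
  List.perm_append_comm.trans (cw_one_cons k i h)

theorem coeff_PP (F : MvPolynomial (Fin 3) ℂ) (p : Fin 3 → ℂ) (hp : Sm F p) (k i : ℕ)
    (G : MvPolynomial (Fin 3) ℂ) (hG : G ∈ JI F p k) :
    (PP F p k G).coeff i = (k.choose i : ℂ) * eval p (wd F (cw k i) G) := by
  induction k generalizing G i with
  | zero =>
    change (Polynomial.C (eval p G)).coeff i = _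
    rw [Polynomial.coeff_C]
    cases i with
    | zero =>
      rw [if_pos rfl, Nat.choose_self, Nat.cast_one, one_mul]
      rfl
    | succ i =>
      rw [if_neg (Nat.succ_ne_zero i), Nat.choose_zero_succ, Nat.cast_zero, zero_mul]
  | succ k ih =>
    change (Polynomial.X * PP F p k (dl F 0 G) + PP F p k (dl F 1 G)).coeff i = _
    have g0 : dl F 0 G ∈ JI F p k := dl_JI F p k 0 G hG
    have g1 : dl F 1 G ∈ JI F p k := dl_JI F p k 1 G hG
    cases i with
    | zero =>
      rw [Polynomial.coeff_add, Polynomial.mul_coeff_zero, Polynomial.coeff_X_zero, zero_mul,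
        zero_add, ih 0 _ g1, wd_snoc]
      rw [wd_perm F p hp _ _ (cw_snoc_one k 0 (Nat.zero_le _)) G (by
        rw [List.length_append, cw_length k 0 (Nat.zero_le _)]
        exact hG)]
      rw [Nat.choose_zero_right, Nat.choose_zero_right]
    | succ i =>
      rw [Polynomial.coeff_add, Polynomial.coeff_X_mul, ih i _ g0, ih (i + 1) _ g1, wd_snoc,
        wd_snoc, Nat.choose_succ_succ, Nat.cast_add, add_mul]
      congr 1
      · rcases Nat.lt_or_ge k i with h | h
        · rw [Nat.choose_eq_zero_of_lt h, Nat.cast_zero, zero_mul, zero_mul]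
        · rw [wd_perm F p hp _ _ (cw_snoc_zero k i) G (by
            rw [List.length_append, cw_length k i h]
            exact hG)]
      · rcases Nat.lt_or_ge k (i + 1) with h | h
        · rw [Nat.choose_eq_zero_of_lt h, Nat.cast_zero, zero_mul, zero_mul]
        · rw [wd_perm F p hp _ _ (cw_snoc_one k (i + 1) h) G (by
            rw [List.length_append, cw_length k (i + 1) h]
            exact hG)]

theorem PP_ne (F : MvPolynomial (Fin 3) ℂ) (p : Fin 3 → ℂ) (hp : Sm F p) (k : ℕ)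
    (G : MvPolynomial (Fin 3) ℂ) (hG : G ∈ JI F p k) (hG' : G ∉ JI F p (k + 1)) :
    PP F p k G ≠ 0 := by
  intro h0
  refine hG' ((mem_succ_iff_lead F p hp k G hG).2 ?_)
  funext i
  rw [lead_apply]
  have h1 := coeff_PP F p hp k i G hG
  rw [h0, Polynomial.coeff_zero] at h1
  have h2 : (k.choose i : ℂ) ≠ 0 := by
    have h3 := Nat.choose_pos (Nat.lt_succ_iff.1 i.2)
    exact_mod_cast h3.ne'
  exact (mul_eq_zero.1 h1.symm).resolve_left h2

/-- an element of order `a` times any polynomial -/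
theorem mul_JI (F : MvPolynomial (Fin 3) ℂ) (p : Fin 3 → ℂ) (a : ℕ)
    (G1 G2 : MvPolynomial (Fin 3) ℂ) (h : G1 ∈ JI F p a) : G1 * G2 ∈ JI F p a :=
  Ideal.mul_mem_right G2 (Ideal.span {F} ⊔ ptIdeal p ^ a) h

/-- Leibniz for the leading derivatives -/
theorem ev_mul (F : MvPolynomial (Fin 3) ℂ) (p : Fin 3 → ℂ) (hp : Sm F p) (t : ℂ) (n : ℕ) :
    ∀ (a b : ℕ) (_ : a + b = n) (G1 G2 : MvPolynomial (Fin 3) ℂ) (_ : G1 ∈ JI F p a)
      (_ : G2 ∈ JI F p b), ev F p t n (G1 * G2) =
        (n.choose a : ℂ) * (ev F p t a G1 * ev F p t b G2) := by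
  induction n with
  | zero =>
    intro a b hab G1 G2 h1 h2
    have ha : a = 0 := by omega
    have hb : b = 0 := by omega
    subst ha
    subst hb
    change eval p (G1 * G2) = _ * (eval p G1 * eval p G2)
    rw [Nat.choose_self, Nat.cast_one, one_mul, map_mul]
  | succ n ih =>
    intro a b hab G1 G2 h1 h2
    have hL : ev F p t (n + 1) (G1 * G2) =
        ev F p t n (G1 * dlt F t G2) + ev F p t n (dlt F t G1 * G2) := by
      change ev F p t n (dlt F t (G1 * G2)) = _
      rw [Derivation.leibniz, ev_add, smul_eq_mul, smul_eq_mul, mul_comm G2]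
    rw [hL]
    cases a with
    | zero =>
      cases b with
      | zero => omega
      | succ b =>
        have hb : b = n := by omega
        subst hb
        rw [ih 0 b (Nat.zero_add b) G1 (dlt F t G2) h1 (dlt_JI F p t b G2 h2)]
        have h3 : ev F p t b (dlt F t G1 * G2) = 0 := by
          refine ev_zero F p hp t b 0 _ ?_
          rw [mul_comm, Nat.zero_add, Nat.add_comm]
          exact mul_JI F p (b + 1) G2 _ h2
        rw [h3, add_zero, Nat.choose_zero_right, Nat.choose_zero_right]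
        rfl
    | succ a =>
      cases b with
      | zero =>
        have ha : a = n := by omega
        subst ha
        rw [ih a 0 (Nat.add_zero a) (dlt F t G1) G2 (dlt_JI F p t a G1 h1) h2]
        have h3 : ev F p t a (G1 * dlt F t G2) = 0 := by
          refine ev_zero F p hp t a 0 _ ?_
          rw [Nat.zero_add, Nat.add_comm]
          exact mul_JI F p (a + 1) G1 _ h1
        rw [h3, zero_add, Nat.choose_self, Nat.choose_self]
        rfl
      | succ b =>
        rw [ih (a + 1) b (by omega) G1 (dlt F t G2) h1 (dlt_JI F p t b G2 h2),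
          ih a (b + 1) (by omega) (dlt F t G1) G2 (dlt_JI F p t a G1 h1) h2,
          Nat.choose_succ_succ, Nat.cast_add]
        have e1 : ev F p t (a + 1) G1 = ev F p t a (dlt F t G1) := rfl
        have e2 : ev F p t (b + 1) G2 = ev F p t b (dlt F t G2) := rfl
        rw [e1, e2]
        ring

theorem JI_anti (F : MvPolynomial (Fin 3) ℂ) (p : Fin 3 → ℂ) {a b : ℕ} (h : a ≤ b) :
    JI F p b ≤ JI F p a := by
  induction b, h using Nat.le_induction with
  | base => exact le_rfl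
  | succ b _ ih => exact (JI_succ_le F p b).trans ih

theorem JI_zero (F : MvPolynomial (Fin 3) ℂ) (p : Fin 3 → ℂ) (G : MvPolynomial (Fin 3) ℂ) :
    G ∈ JI F p 0 := by
  have h : G ∈ Ideal.span {F} ⊔ ptIdeal p ^ 0 := by
    rw [pow_zero, Ideal.one_eq_top, sup_top_eq]
    exact Submodule.mem_top
  exact h

theorem exists_last (Q : ℕ → Prop) (m : ℕ) (h0 : Q 0) (hm : ¬ Q m) :
    ∃ a < m, Q a ∧ ¬ Q (a + 1) := by
  induction m with
  | zero => exact absurd h0 hm
  | succ m ih =>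
    by_cases h : Q m
    · exact ⟨m, Nat.lt_succ_self m, h, hm⟩
    · obtain ⟨a, h1, h2⟩ := ih h
      exact ⟨a, h1.trans (Nat.lt_succ_self m), h2⟩

end ValAux

open ValAux

theorem order_mul (F : MvPolynomial (Fin 3) ℂ) (p : Fin 3 → ℂ) (hp : Sm F p) (a b : ℕ)
    (G1 G2 : MvPolynomial (Fin 3) ℂ) (h1 : G1 ∈ JI F p a) (h1' : G1 ∉ JI F p (a + 1))
    (h2 : G2 ∈ JI F p b) (h2' : G2 ∉ JI F p (b + 1)) : G1 * G2 ∉ JI F p (a + b + 1) := by
  intro h
  have hP : PP F p a G1 * PP F p b G2 ≠ 0 :=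
    mul_ne_zero (PP_ne F p hp a G1 h1 h1') (PP_ne F p hp b G2 h2 h2')
  refine hP (Polynomial.funext fun t => ?_)
  rw [Polynomial.eval_mul, eval_PP, eval_PP, Polynomial.eval_zero]
  have h3 := ev_mul F p hp t (a + b) a b rfl G1 G2 h1 h2
  have h4 : ev F p t (a + b) (G1 * G2) = 0 := by
    refine ev_zero F p hp t (a + b) 0 _ ?_
    rw [Nat.zero_add, Nat.add_comm]
    exact h
  rw [h4] at h3
  have h5 : ((a + b).choose a : ℂ) ≠ 0 := by
    have h6 := Nat.choose_pos (Nat.le_add_right a b)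
    exact_mod_cast h6.ne'
  exact (mul_eq_zero.1 h3.symm).resolve_left h5

theorem val_mul (F : MvPolynomial (Fin 3) ℂ) (p : Fin 3 → ℂ) (hp : Sm F p) (m : ℕ)
    (G1 G2 : MvPolynomial (Fin 3) ℂ) (h : G1 * G2 ∈ JI F p m) :
    ∃ a b, a + b = m ∧ G1 ∈ JI F p a ∧ G2 ∈ JI F p b := by
  by_cases hm : G1 ∈ JI F p m
  · exact ⟨m, 0, rfl, hm, JI_zero F p G2⟩
  · obtain ⟨a, ha, h1, h1'⟩ := exists_last (fun k => G1 ∈ JI F p k) m (JI_zero F p G1) hm
    by_cases hm2 : G2 ∈ JI F p (m - a)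
    · exact ⟨a, m - a, by omega, h1, hm2⟩
    · obtain ⟨b, hb, h2, h2'⟩ := exists_last (fun k => G2 ∈ JI F p k) (m - a)
        (JI_zero F p G2) hm2
      exact absurd (JI_anti F p (show a + b + 1 ≤ m by omega) h)
        (order_mul F p hp a b G1 G2 h1 h1' h2 h2')

theorem JI_mul (F : MvPolynomial (Fin 3) ℂ) (p : Fin 3 → ℂ) (a b : ℕ)
    (G1 G2 : MvPolynomial (Fin 3) ℂ) (h1 : G1 ∈ JI F p a) (h2 : G2 ∈ JI F p b) :
    G1 * G2 ∈ JI F p (a + b) := by
  have h1' : G1 ∈ Ideal.span {F} ⊔ ptIdeal p ^ a := h1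
  have h2' : G2 ∈ Ideal.span {F} ⊔ ptIdeal p ^ b := h2
  obtain ⟨f1, hf1, x1, hx1, rfl⟩ := Submodule.mem_sup.1 h1'
  obtain ⟨f2, hf2, x2, hx2, rfl⟩ := Submodule.mem_sup.1 h2'
  change (f1 + x1) * (f2 + x2) ∈ Ideal.span {F} ⊔ ptIdeal p ^ (a + b)
  have e : (f1 + x1) * (f2 + x2) = (f1 * (f2 + x2) + x1 * f2) + x1 * x2 := by ring
  rw [e]
  refine Ideal.add_mem _ (Ideal.mem_sup_left (Ideal.add_mem _ (Ideal.mul_mem_right _ _ hf1)
    (Ideal.mul_mem_left _ _ hf2))) (Ideal.mem_sup_right ?_)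
  rw [pow_add]
  exact Ideal.mul_mem_mul hx1 hx2

end FPS
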